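import Mathlib
import Pool.Agent.TMX.Stmts3

/-!
# Squad TMX, row VM: `var M ≤ var g` between good peaks
-/

namespace Pool.Agent.TMX.H95

open Finset Pool.Agent.TMX
open Pool.Agent.Helper51_Max (I IsMax)
open Pool.Agent.Helper37_EM (var var_add abs_le_var)

theorem vm_aux (N : ℕ) (g M : ℕ → ℝ) (hok : ∀ p p', Gap N g M p p' → GapOK N g M p p') :
    ∀ k p q : ℕ, q - p ≤ k → Pk N g M p → Pk N g M q → p ≤ q → var M p q ≤ var g p q := by
  intro k
  induction k with
  | zero =>
    intro p q hk _ _ hpq
    have : p = q := by omega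
    subst this
    unfold Pool.Agent.Helper37_EM.var
    simp
  | succ k ih =>
    intro p q hk hp hq hpq
    rcases Nat.eq_or_lt_of_le hpq with h | h
    · subst h
      unfold Pool.Agent.Helper37_EM.var
      simp
    · by_cases hex : ∃ v, p < v ∧ v < q ∧ Pk N g M v
      · obtain ⟨v, h1, h2, h3⟩ := hex
        have e1 := ih p v (by omega) hp h3 h1.le
        have e2 := ih v q (by omega) h3 hq h2.le
        rw [var_add h1.le h2.le, var_add h1.le h2.le]
        linarith
      · have hgap : Gap N g M p q := ⟨hp, hq, h, fun v h1 h2 h3 => hex ⟨v, h1, h2, h3⟩⟩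
        have hi := (hok p q hgap).i
        obtain ⟨w, hw, hmin⟩ := Finset.exists_min_image (Finset.Icc p q) g
          ⟨p, Finset.mem_Icc.2 ⟨le_rfl, hpq⟩⟩
        rw [Finset.mem_Icc] at hw
        have h1 := hi (g w) (fun i h1 h2 => hmin i (Finset.mem_Icc.2 ⟨h1, h2⟩))
        unfold Qv at h1
        have h2 := abs_le_var g hw.1
        have h3 := abs_le_var g hw.2
        have h4 : var g p q = var g p w + var g w q := var_add hw.1 hw.2
        have h5 : g p - g w ≤ var g p w := by
          exact (le_abs_self _).trans h2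
        have h6 : g q - g w ≤ var g w q := by
          rw [abs_sub_comm] at h3
          exact (le_abs_self _).trans h3
        linarith

theorem vm : VM := fun N g M _ hok p q hp hq hpq => vm_aux N g M hok (q - p) p q le_rfl hp hq hpq

end Pool.Agent.TMX.H95
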